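import Pool.Graph.R_seed8.Y440.P.Core
import Pool.Graph.R_seed8.Y440.P.Dens
import Pool.Graph.R_seed8.Y440.P.Lim
import Pool.Graph.R_seed8.Y37.Q440.Codes
import Pool.Graph.R_seed8.Y79.Q440.Sym
import Pool.Graph.R_seed8.Y971.Q440.Wlog
import Pool.Graph.R_seed8.Y914.Q440.Reps
import Pool.Graph.R_seed8.Y333.Q440.WordT
import Pool.Graph.R_seed8.Y363.Q440.Fields
import Pool.Graph.R_seed8.Y515.Q440.Blk
import Pool.Graph.R_seed8.Y809.Q440.Inv
import Pool.Graph.R_seed8.Y779.Q440.Psd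
import Pool.Graph.R_seed8.Y664.Q440.Leaf2
import Pool.Graph.R_seed8.Y665.Q440.Y7
import Pool.Graph.R_seed8.Y888.Q440.Val
import Pool.Graph.R_seed8.Y954.Q440.Idx
import Pool.Graph.R_seed8.Y781.Q440.Avg
import Pool.Graph.R_seed8.Y440.L.M00
import Pool.Graph.R_seed8.Y440.L.M01
import Pool.Graph.R_seed8.Y440.L.M02
import Pool.Graph.R_seed8.Y440.L.M03
import Pool.Graph.R_seed8.Y440.L.M04
import Pool.Graph.R_seed8.Y440.L.M05
import Pool.Graph.R_seed8.Y440.L.M06
import Pool.Graph.R_seed8.Y440.L.M07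
import Pool.Graph.R_seed8.Y440.L.M08
import Pool.Graph.R_seed8.Y440.L.M09
import Pool.Graph.R_seed8.Y440.L.M10
import Pool.Graph.R_seed8.Y440.L.M11
import Pool.Graph.R_seed8.Y440.L.M12
import Pool.Graph.R_seed8.Y440.L.M13
import Pool.Graph.R_seed8.Y440.L.M14
import Pool.Graph.R_seed8.Y440.L.M15
import Pool.Graph.R_seed8.Y440.L.M16
import Pool.Graph.R_seed8.Y440.L.M17
import Pool.Graph.R_seed8.Y440.L.M18
import Pool.Graph.R_seed8.Y440.L.M19
import Pool.Graph.R_seed8.Y440.L.M20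
import Pool.Graph.R_seed8.Y440.L.M21
import Pool.Graph.R_seed8.Y440.L.M22
import Pool.Graph.R_seed8.Y440.L.M23
import Pool.Graph.R_seed8.Y440.L.M24
import Pool.Graph.R_seed8.Y440.L.M25
import Pool.Graph.R_seed8.Y440.L.M26
import Pool.Graph.R_seed8.Y440.L.M27
import Pool.Graph.R_seed8.Y440.L.M28
import Pool.Graph.R_seed8.Y440.L.M29
import Pool.Graph.R_seed8.Y440.L.M30
import Pool.Graph.R_seed8.Y440.L.M31
import Pool.Graph.R_seed8.Y440.L.M32
import Pool.Graph.R_seed8.Y440.L.M33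
import Pool.Graph.R_seed8.Y440.L.M34
import Pool.Graph.R_seed8.Y440.L.M35
import Pool.Graph.R_seed8.Y440.L.M36
import Pool.Graph.R_seed8.Y440.L.M37
import Pool.Graph.R_seed8.Y440.L.M38
import Pool.Graph.R_seed8.Y440.L.M39
import Pool.Graph.R_seed8.Y440.L.M40
import Pool.Graph.R_seed8.Y440.L.M41
import Pool.Graph.R_seed8.Y440.L.M42
import Pool.Graph.R_seed8.Y440.L.M43
import Pool.Graph.R_seed8.Y440.L.M44
import Pool.Graph.R_seed8.Y440.L.M45
import Pool.Graph.R_seed8.Y440.L.M46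
import Pool.Graph.R_seed8.Y440.L.M47

/-! The core inequality of the library project `Y440`: assembly of its parts. -/

set_option autoImplicit false
set_option maxRecDepth 100000

open Finset

namespace Pool.Agent.H69.TP

open Pool.Agent

def l00 : List ℕ := [1047, 1207, 11447, 11471, 11514, 12576, 15839, 88519]
def l01 : List ℕ := [3386, 3400, 11448, 12537, 12771, 15610, 76987, 78046]
def l02 : List ℕ := [1196, 3349, 11510, 12511, 13797, 31201, 65527, 78045, 78140]
def l03 : List ℕ := [1135, 1188, 3383, 13685, 15864, 31205, 78137, 79231]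
def l04 : List ℕ := [1192, 3454, 7389, 11459, 13561, 15732, 15740, 15866, 120813]
def l05 : List ℕ := [1064, 1279, 3420, 7388, 13547, 31203, 76985, 81151]
def l06 : List ℕ := [0, 1052, 3351, 3390, 7375, 7386, 11485, 15609, 79070, 88542]
def l07 : List ℕ := [59, 1150, 3219, 3374, 15803, 31215, 78044, 89564]
def l08 : List ℕ := [29, 3422, 12646, 13798, 31221, 78142, 79068, 79069]
def l09 : List ℕ := [15, 3366, 11463, 11484, 12502, 12539, 13684, 65535, 97783, 120805]
def l10 : List ℕ := [7, 1211, 3134, 3221, 3372, 3388, 12783, 81260]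
def l11 : List ℕ := [28, 1063, 11480, 15801, 15828, 65520, 79071, 88527, 97791]
def l12 : List ℕ := [1070, 7369, 11475, 11512, 12768, 13689, 15615, 31219, 31220, 65523]
def l13 : List ℕ := [1516, 3228, 3373, 7353, 15836, 79086, 79212, 81261]
def l14 : List ℕ := [1197, 3229, 3290, 7422, 11481, 13814, 15869, 96761]
def l15 : List ℕ := [1245, 1261, 3389, 78172, 79308, 79309, 81279, 88540, 1048575]
def l16 : List ℕ := [3224, 3295, 11479, 12583, 13566, 15741, 15827, 77020, 120815]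
def l17 : List ℕ := [1066, 1079, 3135, 3385, 13812, 79213, 79215, 79341]
def l18 : List ℕ := [1260, 3166, 3259, 3279, 12643, 13533, 15865, 78190, 122835]
def l19 : List ℕ := [20, 1247, 3164, 7390, 11477, 12591, 12651, 78047]
def l20 : List ℕ := [3273, 11487, 13564, 13796, 13821, 31217, 76983, 78141]
def l21 : List ℕ := [1228, 3220, 3292, 3391, 7387, 12775, 81262, 88535, 241503, 242467]
def l22 : List ℕ := [1044, 3359, 3367, 7352, 12543, 13550, 15608, 32243, 78174]
def l23 : List ℕ := [1535, 3127, 3370, 3439, 7355, 12640, 15867, 79310, 89559, 119807]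
def l24 : List ℕ := [3165, 3256, 3294, 3356, 3382, 13813, 15614, 89565]
def l25 : List ℕ := [220, 3262, 3357, 3421, 77006, 79196, 122843, 241518, 243558]
def l26 : List ℕ := [1085, 1086, 3371, 3436, 11478, 12495, 13560, 13811, 78143]
def l27 : List ℕ := [1133, 1195, 3263, 7423, 11465, 11515, 13558, 31200, 78134, 88575]
def l28 : List ℕ := [1134, 1191, 3326, 3387, 7371, 11455, 13526, 15611, 15859, 89567]
def l29 : List ℕ := [3131, 3199, 3365, 3419, 7350, 11467, 12508, 13815, 32245, 241500]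
def l30 : List ℕ := [1043, 1213, 3254, 3257, 7351, 12534, 13545, 13563]
def l31 : List ℕ := [1209, 3293, 3348, 7294, 12647, 15804, 31228, 78031, 78207]
def l32 : List ℕ := [1084, 3423, 11443, 11483, 11511, 12535, 13693, 32247, 78079, 122844]
def l33 : List ℕ := [1055, 1067, 3350, 11513, 12655, 13543, 13686, 76984, 88534, 88543]
def l34 : List ℕ := [1078, 1262, 1263, 3255, 3455, 13795, 15829, 89580]
def l35 : List ℕ := [31, 1071, 7295, 7391, 11451, 11519, 12579, 12774, 13532, 13546]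
def l36 : List ℕ := [23, 1244, 3126, 3167, 3198, 3364, 13544, 13551, 97787, 119631]
def l37 : List ℕ := [1053, 1193, 3258, 3347, 13535, 13820, 15606, 81263]
def l38 : List ℕ := [21, 1208, 3418, 3438, 13542, 13823, 15800, 79087]
def l39 : List ℕ := [54, 126, 3225, 3327, 13687, 15795, 31207, 32255, 79269, 241514]
def l40 : List ℕ := [62, 1189, 1215, 1231, 3375, 12503, 13804, 79340]
def l41 : List ℕ := [58, 1045, 3227, 7354, 11476, 13562, 78191, 96757]
def l42 : List ℕ := [1, 19, 3223, 11458, 12487, 13692, 15733, 88558, 89599, 120812]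
def l43 : List ℕ := [1083, 1132, 3402, 7359, 11482, 12486, 12509, 15861, 122841]
def l44 : List ℕ := [3, 1229, 3130, 7358, 13565, 13567, 32252, 76991]
def l45 : List ℕ := [1062, 1199, 1212, 11486, 11507, 15837, 79102, 79103]
def l46 : List ℕ := [1065, 1087, 1151, 3231, 3369, 11462, 77002, 79214]
def l47 : List ℕ := [1082, 3275, 3291, 11449, 11518, 15868, 79277, 96763]

theorem hall : ∀ r ∈ Y440.A.reps, Y440.B.chkB Y440.K.leaf2 r = true := by
  intro r hr
  have key : ∀ r ∈ Y440.A.reps, r ∈ (l00 ++ (l01 ++ (l02 ++ (l03 ++ (l04 ++ (l05 ++ (l06 ++ (l07 ++ (l08 ++ (l09 ++ (l10 ++ (l11 ++ (l12 ++ (l13 ++ (l14 ++ (l15 ++ (l16 ++ (l17 ++ (l18 ++ (l19 ++ (l20 ++ (l21 ++ (l22 ++ (l23 ++ (l24 ++ (l25 ++ (l26 ++ (l27 ++ (l28 ++ (l29 ++ (l30 ++ (l31 ++ (l32 ++ (l33 ++ (l34 ++ (l35 ++ (l36 ++ (l37 ++ (l38 ++ (l39 ++ (l40 ++ (l41 ++ (l42 ++ (l43 ++ (l44 ++ (l45 ++ (l46 ++ (l47)))))))))))))))))))))))))))))))))))))))))))))))) := by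
    decide +kernel
  have h := key r hr
  simp only [List.mem_append] at h
  rcases h with h | h | h | h | h | h | h | h | h | h | h | h | h | h | h | h | h | h | h | h | h | h | h | h | h | h | h | h | h | h | h | h | h | h | h | h | h | h | h | h | h | h | h | h | h | h | h | h
  · exact Y440.L.m00 r h
  · exact Y440.L.m01 r h
  · exact Y440.L.m02 r h
  · exact Y440.L.m03 r h
  · exact Y440.L.m04 r h
  · exact Y440.L.m05 r h
  · exact Y440.L.m06 r h
  · exact Y440.L.m07 r h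
  · exact Y440.L.m08 r h
  · exact Y440.L.m09 r h
  · exact Y440.L.m10 r h
  · exact Y440.L.m11 r h
  · exact Y440.L.m12 r h
  · exact Y440.L.m13 r h
  · exact Y440.L.m14 r h
  · exact Y440.L.m15 r h
  · exact Y440.L.m16 r h
  · exact Y440.L.m17 r h
  · exact Y440.L.m18 r h
  · exact Y440.L.m19 r h
  · exact Y440.L.m20 r h
  · exact Y440.L.m21 r h
  · exact Y440.L.m22 r h
  · exact Y440.L.m23 r h
  · exact Y440.L.m24 r h
  · exact Y440.L.m25 r h
  · exact Y440.L.m26 r h
  · exact Y440.L.m27 r h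
  · exact Y440.L.m28 r h
  · exact Y440.L.m29 r h
  · exact Y440.L.m30 r h
  · exact Y440.L.m31 r h
  · exact Y440.L.m32 r h
  · exact Y440.L.m33 r h
  · exact Y440.L.m34 r h
  · exact Y440.L.m35 r h
  · exact Y440.L.m36 r h
  · exact Y440.L.m37 r h
  · exact Y440.L.m38 r h
  · exact Y440.L.m39 r h
  · exact Y440.L.m40 r h
  · exact Y440.L.m41 r h
  · exact Y440.L.m42 r h
  · exact Y440.L.m43 r h
  · exact Y440.L.m44 r h
  · exact Y440.L.m45 r h
  · exact Y440.L.m46 r h
  · exact Y440.L.m47 r h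

theorem core : Y440.A.S_core :=
  Y440.P.core Y37.Q440.t Y79.Q440.t (Y971.Q440.t Y79.Q440.t) (Y914.Q440.t Y37.Q440.t) Y333.Q440.t
    Y363.Q440.t2 Y515.Q440.t_blk (Y809.Q440.t Y888.Q440.t Y954.Q440.t) (Y779.Q440.t Y888.Q440.t Y954.Q440.t)
    (Y664.Q440.t Y888.Q440.t Y954.Q440.t Y363.Q440.t1 Y665.Q440.t) hall Y781.Q440.t

end Pool.Agent.H69.TP
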