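import Pool.Graph.R_seed8.Y705.Q440.Lower

/-! The pair-links of the hypergraphs of de Caen, Kreher and Wiseman. -/

set_option autoImplicit false

open Finset

namespace Pool.Agent.H69.TP

open Pool.Agent.Y440.A
open Pool.Agent.Y705.Q440.Lower

/-- the hypergraphs `HM A M` have density close to 11/16 for suitable `A`, `M` (the proof is that of the
library, with the hypergraph in the statement) -/
theorem exists_HM : ∀ ε : ℝ, 0 < ε → ∃ N : ℕ, ∀ n : ℕ, N ≤ n → ∃ (A : Finset (Fin n)) (M : Fin n → Fin n → ZMod 2),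
    (11 / 16 - ε) * (n.choose 4 : ℝ) ≤ ((HM A M).card : ℝ) := by
  intro ε hε
  refine ⟨max 5 (⌈14 / ε⌉₊ + 1), fun n hn => ?_⟩
  classical
  have hn5 : 5 ≤ n := (le_max_left _ _).trans hn
  have hnε : 14 / ε ≤ (n : ℝ) := by
    have h1 : ⌈14 / ε⌉₊ + 1 ≤ n := (le_max_right _ _).trans hn
    have h2 := Nat.le_ceil (14 / ε)
    have h3 : ((⌈14 / ε⌉₊ + 1 : ℕ) : ℝ) ≤ n := by exact_mod_cast h1
    push_cast at h3
    linarith
  set A : Finset (Fin n) := univ.filter (fun i => i.val < n / 2) with hA
  have hAc : A.card = n / 2 := by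
    rw [hA, Fin.card_filter_val_lt]
    exact min_eq_right (Nat.div_le_self _ _)
  have hBc : Aᶜ.card = n - n / 2 := by
    rw [card_compl, Fintype.card_fin, hAc]
  obtain ⟨M, hM⟩ := exists_M A
  have hH := card_HM A M
  refine ⟨A, M, ?_⟩
  have hP2 : (P2 A).card = A.card.choose 2 * Aᶜ.card.choose 2 := by
    unfold P2
    rw [card_product, card_powersetCard, card_powersetCard]
  rw [hP2, hAc, hBc] at hM
  rw [hAc, hBc] at hH
  set α := n / 2 with hα
  set β := n - n / 2 with hβ
  set z : ℝ := ((n : ℝ) - 5) / 2 with hz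
  have hnR : (5 : ℝ) ≤ n := by exact_mod_cast hn5
  have hz0 : 0 ≤ z := by rw [hz]; linarith
  have ha : z ≤ ((α + 1 - 3 : ℕ) : ℝ) := by
    have h1 : n ≤ 2 * (α + 1 - 3) + 5 := by omega
    have h2 : (n : ℝ) ≤ 2 * ((α + 1 - 3 : ℕ) : ℝ) + 5 := by exact_mod_cast h1
    rw [hz]; linarith
  have hb : z ≤ ((β + 1 - 3 : ℕ) : ℝ) := by
    have h1 : n ≤ 2 * (β + 1 - 3) + 5 := by omega
    have h2 : (n : ℝ) ≤ 2 * ((β + 1 - 3 : ℕ) : ℝ) + 5 := by exact_mod_cast h1
    rw [hz]; linarith
  have ha2 : z ≤ ((α + 1 - 2 : ℕ) : ℝ) := by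
    have h1 : n ≤ 2 * (α + 1 - 2) + 5 := by omega
    have h2 : (n : ℝ) ≤ 2 * ((α + 1 - 2 : ℕ) : ℝ) + 5 := by exact_mod_cast h1
    rw [hz]; linarith
  have hb2 : z ≤ ((β + 1 - 2 : ℕ) : ℝ) := by
    have h1 : n ≤ 2 * (β + 1 - 2) + 5 := by omega
    have h2 : (n : ℝ) ≤ 2 * ((β + 1 - 2 : ℕ) : ℝ) + 5 := by exact_mod_cast h1
    rw [hz]; linarith
  have ha1 : z ≤ (α : ℝ) := by
    have h1 : n ≤ 2 * α + 5 := by omega
    have h2 : (n : ℝ) ≤ 2 * (α : ℝ) + 5 := by exact_mod_cast h1
    rw [hz]; linarith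
  have hb1 : z ≤ (β : ℝ) := by
    have h1 : n ≤ 2 * β + 5 := by omega
    have h2 : (n : ℝ) ≤ 2 * (β : ℝ) + 5 := by exact_mod_cast h1
    rw [hz]; linarith
  have c3 : ∀ m : ℕ, z ≤ ((m + 1 - 3 : ℕ) : ℝ) → z ^ 3 / 6 ≤ (m.choose 3 : ℝ) := by
    intro m hm
    have h1 := Nat.pow_le_choose (α := ℝ) 3 m
    have h2 : (z ^ 3) ≤ ((m + 1 - 3 : ℕ) : ℝ) ^ 3 := pow_le_pow_left₀ hz0 hm 3
    have h3 : ((Nat.factorial 3 : ℕ) : ℝ) = 6 := by norm_num [Nat.factorial]
    rw [h3] at h1
    exact (div_le_div_of_nonneg_right h2 (by norm_num)).trans h1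
  have c2 : ∀ m : ℕ, z ≤ ((m + 1 - 2 : ℕ) : ℝ) → z ^ 2 / 2 ≤ (m.choose 2 : ℝ) := by
    intro m hm
    have h1 := Nat.pow_le_choose (α := ℝ) 2 m
    have h2 : (z ^ 2) ≤ ((m + 1 - 2 : ℕ) : ℝ) ^ 2 := pow_le_pow_left₀ hz0 hm 2
    have h3 : ((Nat.factorial 2 : ℕ) : ℝ) = 2 := by norm_num [Nat.factorial]
    rw [h3] at h1
    exact (div_le_div_of_nonneg_right h2 (by norm_num)).trans h1
  have hHR : ((α.choose 3 : ℝ) * β + α * (β.choose 3 : ℝ)) +
      (((P2 A).filter (fun p => ∑ a ∈ p.1, ∑ b ∈ p.2, M a b = 1)).card : ℝ) ≤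
      ((HM A M).card : ℝ) := by exact_mod_cast hH
  have hMR : (α.choose 2 : ℝ) * (β.choose 2 : ℝ) ≤
      2 * (((P2 A).filter (fun p => ∑ a ∈ p.1, ∑ b ∈ p.2, M a b = 1)).card : ℝ) := by
    exact_mod_cast hM
  have l1 : z ^ 3 / 6 * z ≤ (α.choose 3 : ℝ) * β :=
    mul_le_mul (c3 α ha) hb1 hz0 (by positivity)
  have l2 : z * (z ^ 3 / 6) ≤ (α : ℝ) * (β.choose 3 : ℝ) :=
    mul_le_mul ha1 (c3 β hb) (by positivity) (by positivity)
  have l3 : (z ^ 2 / 2) * (z ^ 2 / 2) ≤ (α.choose 2 : ℝ) * (β.choose 2 : ℝ) :=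
    mul_le_mul (c2 α ha2) (c2 β hb2) (by positivity) (by positivity)
  have l4 : 11 / 24 * z ^ 4 ≤ ((HM A M).card : ℝ) := by nlinarith
  refine le_trans ?_ l4
  by_cases hε1 : 11 / 16 - ε ≤ 0
  · have : (11 / 16 - ε) * (n.choose 4 : ℝ) ≤ 0 :=
      mul_nonpos_of_nonpos_of_nonneg hε1 (by positivity)
    exact this.trans (by positivity)
  · push Not at hε1
    have h1 : (n.choose 4 : ℝ) ≤ (n : ℝ) ^ 4 / 24 := by
      have := Nat.choose_le_pow_div (α := ℝ) 4 n
      have h3 : ((Nat.factorial 4 : ℕ) : ℝ) = 24 := by norm_num [Nat.factorial]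
      rwa [h3] at this
    refine (mul_le_mul_of_nonneg_left h1 hε1.le).trans ?_
    have h2 : 14 ≤ (n : ℝ) * ε := by
      rwa [div_le_iff₀ hε] at hnε
    have h3 : (n : ℝ) ^ 4 - 20 * n ^ 3 ≤ ((n : ℝ) - 5) ^ 4 := by nlinarith [sq_nonneg ((n : ℝ) - 2)]
    have h4 : 14 * (n : ℝ) ^ 3 ≤ (n : ℝ) * ε * (n : ℝ) ^ 3 :=
      mul_le_mul_of_nonneg_right h2 (by positivity)
    rw [hz]
    have h5 : ((n : ℝ) - 5) ^ 4 = 16 * (((n : ℝ) - 5) / 2) ^ 4 := by ring
    nlinarith


variable {n : ℕ}

theorem hw_40 (A : Finset (Fin n)) (M : Fin n → Fin n → ZMod 2) {U : Finset (Fin n)}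
    (hU : U ⊆ A) (h4 : U.card = 4) : hw A M U = 0 := by
  classical
  have h := hw_split A M hU (disjoint_empty_left A)
  rw [union_empty] at h
  rw [h, sum_empty, add_zero]
  have e : ∀ x ∈ U, gp M (U.erase x) ∅ = 1 := by
    intro x hx
    unfold gp
    rw [if_pos rfl, if_neg (erase_ne_empty (by omega) hx), if_neg (by simp)]
    simp
  rw [sum_congr rfl e, sum_const, h4]
  decide

theorem hw_04 (A : Finset (Fin n)) (M : Fin n → Fin n → ZMod 2) {V : Finset (Fin n)}
    (hV : Disjoint V A) (h4 : V.card = 4) : hw A M V = 0 := by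
  classical
  have h := hw_split A M (empty_subset A) hV
  rw [empty_union] at h
  rw [h, sum_empty, zero_add]
  have e : ∀ x ∈ V, gp M ∅ (V.erase x) = 1 := by
    intro x hx
    unfold gp
    rw [if_neg (erase_ne_empty (by omega) hx), if_pos rfl]
    simp
  rw [sum_congr rfl e, sum_const, h4]
  decide

theorem mem_HM (A : Finset (Fin n)) (M : Fin n → Fin n → ZMod 2) {Q : Finset (Fin n)}
    (h4 : Q.card = 4) : Q ∈ HM A M ↔ hw A M Q = 1 := by
  unfold HM
  rw [mem_filter, mem_powersetCard]
  exact ⟨fun h => h.2, fun h => ⟨⟨subset_univ _, h4⟩, h⟩⟩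

theorem card_four {p q a b : Fin n} (h1 : p ≠ q) (h2 : p ≠ a) (h3 : p ≠ b) (h4 : q ≠ a) (h5 : q ≠ b)
    (h6 : a ≠ b) : ({p, q, a, b} : Finset (Fin n)).card = 4 := by
  rw [card_insert_of_notMem, card_insert_of_notMem, card_pair h6]
  · simp [h4, h5]
  · simp [h1, h2, h3]

/-- the pair-link of two points on the same side is a complete multipartite graph -/
theorem same_side (A : Finset (Fin n)) (M : Fin n → Fin n → ZMod 2) {p q : Fin n} (hpq : p ≠ q)
    (hs : p ∈ A ↔ q ∈ A) : ∃ c : Fin n → Option (ZMod 2), ∀ a b : Fin n, a ≠ b → p ≠ a → p ≠ b →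
      q ≠ a → q ≠ b → (({p, q, a, b} : Finset (Fin n)) ∈ HM A M ↔ c a ≠ c b) := by
  classical
  have hz : ∀ x y z w : ZMod 2, (x + y + (z + w) = 1) ↔ x + z ≠ y + w := by decide
  by_cases hp : p ∈ A
  · have hq : q ∈ A := hs.1 hp
    refine ⟨fun x => if x ∈ A then none else some (M p x + M q x), fun a b hab h1 h2 h3 h4 => ?_⟩
    have hc := card_four hpq h1 h2 h3 h4 hab
    rw [mem_HM A M hc]
    by_cases ha : a ∈ A
    · by_cases hb : b ∈ A
      · rw [hw_40 A M _ hc]
        · simp [ha, hb]
        · intro x hx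
          simp only [mem_insert, mem_singleton] at hx
          rcases hx with rfl | rfl | rfl | rfl <;> assumption
      · have e : ({p, q, a, b} : Finset (Fin n)) = {p, q, a} ∪ {b} := by
          ext x; simp only [mem_insert, mem_singleton, mem_union]; tauto
        rw [e, hw_31 A M]
        · simp [ha, hb]
        · intro x hx
          simp only [mem_insert, mem_singleton] at hx
          rcases hx with rfl | rfl | rfl <;> assumption
        · simpa using hb
        · rw [card_insert_of_notMem, card_pair h3]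
          simp [hpq, h1]
        · exact card_singleton b
    · by_cases hb : b ∈ A
      · have e : ({p, q, a, b} : Finset (Fin n)) = {p, q, b} ∪ {a} := by
          ext x; simp only [mem_insert, mem_singleton, mem_union]; tauto
        rw [e, hw_31 A M]
        · simp [ha, hb]
        · intro x hx
          simp only [mem_insert, mem_singleton] at hx
          rcases hx with rfl | rfl | rfl <;> assumption
        · simpa using ha
        · rw [card_insert_of_notMem, card_pair h4]
          simp [hpq, h2]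
        · exact card_singleton a
      · have e : ({p, q, a, b} : Finset (Fin n)) = {p, q} ∪ {a, b} := by
          ext x; simp only [mem_insert, mem_singleton, mem_union]; tauto
        rw [e, hw_22 A M _ _ (card_pair hpq) (card_pair hab), sum_pair hpq, sum_pair hab, sum_pair hab, hz]
        · simp [ha, hb]
        · intro x hx
          simp only [mem_insert, mem_singleton] at hx
          rcases hx with rfl | rfl <;> assumption
        · rw [Finset.disjoint_left]
          intro x hx
          simp only [mem_insert, mem_singleton] at hx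
          rcases hx with rfl | rfl <;> assumption
  · have hq : q ∉ A := fun h => hp (hs.2 h)
    refine ⟨fun x => if x ∈ A then some (M x p + M x q) else none, fun a b hab h1 h2 h3 h4 => ?_⟩
    have hc := card_four hpq h1 h2 h3 h4 hab
    rw [mem_HM A M hc]
    by_cases ha : a ∈ A
    · by_cases hb : b ∈ A
      · have e : ({p, q, a, b} : Finset (Fin n)) = {a, b} ∪ {p, q} := by
          ext x; simp only [mem_insert, mem_singleton, mem_union]; tauto
        rw [e, hw_22 A M _ _ (card_pair hab) (card_pair hpq), sum_pair hab, sum_pair hpq, sum_pair hpq]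
        · have hz' : ∀ x y z w : ZMod 2, (x + y + (z + w) = 1) ↔ x + y ≠ z + w := by decide
          rw [hz']
          simp [ha, hb]
        · intro x hx
          simp only [mem_insert, mem_singleton] at hx
          rcases hx with rfl | rfl <;> assumption
        · rw [Finset.disjoint_left]
          intro x hx
          simp only [mem_insert, mem_singleton] at hx
          rcases hx with rfl | rfl <;> assumption
      · have e : ({p, q, a, b} : Finset (Fin n)) = {a} ∪ {p, q, b} := by
          ext x; simp only [mem_insert, mem_singleton, mem_union]; tauto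
        rw [e, hw_13 A M]
        · simp [ha, hb]
        · simpa using ha
        · rw [Finset.disjoint_left]
          intro x hx
          simp only [mem_insert, mem_singleton] at hx
          rcases hx with rfl | rfl | rfl <;> assumption
        · exact card_singleton a
        · rw [card_insert_of_notMem, card_pair h4]
          simp [hpq, h2]
    · by_cases hb : b ∈ A
      · have e : ({p, q, a, b} : Finset (Fin n)) = {b} ∪ {p, q, a} := by
          ext x; simp only [mem_insert, mem_singleton, mem_union]; tauto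
        rw [e, hw_13 A M]
        · simp [ha, hb]
        · simpa using hb
        · rw [Finset.disjoint_left]
          intro x hx
          simp only [mem_insert, mem_singleton] at hx
          rcases hx with rfl | rfl | rfl <;> assumption
        · exact card_singleton b
        · rw [card_insert_of_notMem, card_pair h3]
          simp [hpq, h1]
      · rw [hw_04 A M _ hc]
        · simp [ha, hb]
        · rw [Finset.disjoint_left]
          intro x hx
          simp only [mem_insert, mem_singleton] at hx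
          rcases hx with rfl | rfl | rfl | rfl <;> assumption

/-- in the pair-link of two points on different sides the points of each side form a clique -/
theorem other_side (A : Finset (Fin n)) (M : Fin n → Fin n → ZMod 2) {p q : Fin n}
    (hs : ¬ (p ∈ A ↔ q ∈ A)) {a b : Fin n} (hab : a ≠ b) (h1 : p ≠ a) (h2 : p ≠ b)
    (h3 : q ≠ a) (h4 : q ≠ b) (hc : a ∈ A ↔ b ∈ A) : ({p, q, a, b} : Finset (Fin n)) ∈ HM A M := by
  classical
  have hpq : p ≠ q := by
    rintro rfl
    exact hs Iff.rfl
  wlog hp : p ∈ A generalizing p q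
  · have hq : q ∈ A := by
      by_contra hq
      exact hs ⟨fun h => absurd h hp, fun h => absurd h hq⟩
    have h := this (p := q) (q := p) (fun h => hs h.symm) h3 h4 h1 h2 hpq.symm hq
    have e : ({p, q, a, b} : Finset (Fin n)) = {q, p, a, b} := by
      ext x; simp only [mem_insert, mem_singleton]; tauto
    rw [e]
    exact h
  have hq : q ∉ A := fun h => hs ⟨fun _ => h, fun _ => hp⟩
  rw [mem_HM A M (card_four hpq h1 h2 h3 h4 hab)]
  by_cases ha : a ∈ A
  · have hb : b ∈ A := hc.1 ha
    have e : ({p, q, a, b} : Finset (Fin n)) = {p, a, b} ∪ {q} := by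
      ext x; simp only [mem_insert, mem_singleton, mem_union]; tauto
    rw [e]
    refine hw_31 A M ?_ ?_ ?_ (card_singleton q)
    · intro x hx
      simp only [mem_insert, mem_singleton] at hx
      rcases hx with rfl | rfl | rfl <;> assumption
    · simpa using hq
    · rw [card_insert_of_notMem, card_pair hab]
      simp [h1, h2]
  · have hb : b ∉ A := fun h => ha (hc.2 h)
    have e : ({p, q, a, b} : Finset (Fin n)) = {p} ∪ {q, a, b} := by
      ext x; simp only [mem_insert, mem_singleton, mem_union]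
    rw [e]
    refine hw_13 A M ?_ ?_ (card_singleton p) ?_
    · simpa using hp
    · rw [Finset.disjoint_left]
      intro x hx
      simp only [mem_insert, mem_singleton] at hx
      rcases hx with rfl | rfl | rfl <;> assumption
    · rw [card_insert_of_notMem, card_pair hab]
      simp [h3, h4]

/-- no pair-link has an edge `x y` and two points `z`, `w` such that `z` is joined to none of `x`, `y`, `w`
and `w` is not joined to `x` -/
theorem no_pattern (A : Finset (Fin n)) (M : Fin n → Fin n → ZMod 2) {p q x y z w : Fin n} (hpq : p ≠ q)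
    (hp : ∀ v ∈ [x, y, z, w], p ≠ v) (hq : ∀ v ∈ [x, y, z, w], q ≠ v) (hxy : x ≠ y) (hxz : x ≠ z)
    (hyz : y ≠ z) (hxw : x ≠ w) (hzw : z ≠ w)
    (e1 : ({p, q, x, y} : Finset (Fin n)) ∈ HM A M) (e2 : ({p, q, x, z} : Finset (Fin n)) ∉ HM A M)
    (e3 : ({p, q, y, z} : Finset (Fin n)) ∉ HM A M) (e4 : ({p, q, x, w} : Finset (Fin n)) ∉ HM A M)
    (e5 : ({p, q, z, w} : Finset (Fin n)) ∉ HM A M) : False := by
  have px := hp x (by simp)
  have py := hp y (by simp)
  have pz := hp z (by simp)
  have pw := hp w (by simp)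
  have qx := hq x (by simp)
  have qy := hq y (by simp)
  have qz := hq z (by simp)
  have qw := hq w (by simp)
  by_cases hs : p ∈ A ↔ q ∈ A
  · obtain ⟨c, hc⟩ := same_side A M hpq hs
    rw [hc x y hxy px py qx qy] at e1
    rw [hc x z hxz px pz qx qz] at e2
    rw [hc y z hyz py pz qy qz] at e3
    push Not at e2 e3
    exact e1 (e2.trans e3.symm)
  · have k2 : ¬ (x ∈ A ↔ z ∈ A) := fun h => e2 (other_side A M hs hxz px pz qx qz h)
    have k4 : ¬ (x ∈ A ↔ w ∈ A) := fun h => e4 (other_side A M hs hxw px pw qx qw h)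
    have k5 : ¬ (z ∈ A ↔ w ∈ A) := fun h => e5 (other_side A M hs hzw pz pw qz qw h)
    tauto

end Pool.Agent.H69.TP
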